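import Mathlib

/-! Finitely generated fields. -/

set_option autoImplicit false
set_option linter.all false

open Polynomial
open scoped IntermediateField.algebraAdjoinAdjoin

namespace Pool.Agent.R410.LW

/-- The field `M` is finitely generated over its prime field. -/
def FG (M : Type) [Field M] : Prop := ∃ S : Finset M, Subfield.closure (S : Set M) = ⊤

theorem frac_of_closure {R M : Type} [CommRing R] [Field M] [Algebra R M]
    (hinj : Function.Injective (algebraMap R M))
    (h : Subfield.closure (Set.range (algebraMap R M)) = ⊤) : IsFractionRing R M := by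
  have hf : FaithfulSMul R M := (faithfulSMul_iff_algebraMap_injective R M).2 hinj
  refine IsFractionRing.of_field R M fun z => ?_
  have hz : z ∈ Subfield.closure (Set.range (algebraMap R M)) := by
    rw [h]
    trivial
  rw [Subfield.mem_closure_iff] at hz
  have hr : Subring.closure (Set.range (algebraMap R M)) = (algebraMap R M).range := by
    rw [← RingHom.coe_range, Subring.closure_eq]
  rw [hr] at hz
  obtain ⟨_, ⟨a, rfl⟩, _, ⟨b, rfl⟩, hab⟩ := hz
  exact ⟨a, b, hab.symm⟩

/-- the ring generated by a finite set of generators of the field -/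
theorem closure_spec {M : Type} [Field M] (S : Finset M) (hS : Subfield.closure (S : Set M) = ⊤) :
    Algebra.FiniteType ℤ (Algebra.adjoin ℤ (S : Set M)) ∧
      IsFractionRing (Algebra.adjoin ℤ (S : Set M)) M := by
  refine ⟨(Subalgebra.fg_iff_finiteType _).1 ⟨S, rfl⟩, ?_⟩
  refine frac_of_closure (fun x y h => Subtype.ext h) ?_
  rw [eq_top_iff, ← hS, Subfield.closure_le]
  intro s hs
  exact Subfield.subset_closure ⟨⟨s, Algebra.subset_adjoin hs⟩, rfl⟩

theorem trdeg_one {F M : Type} [Field F] [Field M] [Algebra F M] (x : M) (hx : Transcendental F x)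
    [h : Algebra.IsAlgebraic (IntermediateField.adjoin F {x}) M] : Algebra.trdeg F M = 1 := by
  have h1 : IsTranscendenceBasis F (fun _ : Unit => x) := by
    rw [isTranscendenceBasis_iff_algebraicIndependent_isAlgebraic]
    refine ⟨algebraicIndependent_unique_type_iff.2 hx, ?_⟩
    have hr : Set.range (fun _ : Unit => x) = {x} := by
      ext z
      simp [eq_comm]
    rw [hr]
    exact (IsFractionRing.comap_isAlgebraic_iff (A := Algebra.adjoin F ({x} : Set M))
      (K := IntermediateField.adjoin F {x}) (C := M)).2 h
  have h2 := h1.lift_cardinalMk_eq_trdeg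
  simpa using h2.symm

theorem exists_sub {M : Type} [Field M] [CharZero M] {d : ℕ} (h : Algebra.trdeg ℚ M = (d + 1 : ℕ)) :
    ∃ (T : Finset M) (x : M), Transcendental (IntermediateField.adjoin ℚ (T : Set M)) x ∧
      Algebra.IsAlgebraic (IntermediateField.adjoin (IntermediateField.adjoin ℚ (T : Set M)) {x}) M := by
  classical
  obtain ⟨ι, y₀, hy₀⟩ := exists_isTranscendenceBasis' ℚ M
  have hc := hy₀.cardinalMk_eq_trdeg
  rw [h] at hc
  have hc' : Cardinal.mk ι = Cardinal.mk (Option (Fin d)) := by
    rw [hc]
    simp
  obtain ⟨e⟩ := Cardinal.eq.1 hc'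
  set y : Option (Fin d) → M := y₀ ∘ e.symm with hy
  have hyb : IsTranscendenceBasis ℚ y := (isTranscendenceBasis_equiv e.symm).2 hy₀
  set T : Finset M := Finset.univ.image fun i : Fin d => y (some i) with hT
  have hTr : (T : Set M) = Set.range fun i : Fin d => y (some i) := by
    rw [hT, Finset.coe_image, Finset.coe_univ, Set.image_univ]
  refine ⟨T, y none, ?_, ?_⟩
  · have h1 : AlgebraicIndependent ℚ (fun o : Option (Fin d) => o.elim (y none) fun i => y (some i)) := by
      have h2 : (fun o : Option (Fin d) => o.elim (y none) fun i => y (some i)) = y := by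
        funext o
        cases o <;> rfl
      rw [h2]
      exact hyb.1
    have h3 := (AlgebraicIndependent.option_iff.1 h1).2
    rw [← hTr] at h3
    intro h4
    apply h3
    exact (IsFractionRing.isAlgebraic_iff (Algebra.adjoin ℚ (T : Set M))
      (IntermediateField.adjoin ℚ (T : Set M)) M).2 h4
  · have h1 := hyb.isAlgebraic_field
    set N1 := IntermediateField.adjoin ℚ (Set.range y) with hN1
    set F := IntermediateField.adjoin ℚ (T : Set M) with hF
    set N2 := IntermediateField.adjoin F {y none} with hN2
    have hle : N1 ≤ N2.restrictScalars ℚ := by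
      rw [hN1, IntermediateField.adjoin_le_iff]
      rintro _ ⟨o, rfl⟩
      rcases o with _ | i
      · exact IntermediateField.subset_adjoin F {y none} (Set.mem_singleton _)
      · have h2 : y (some i) ∈ F := by
          refine IntermediateField.subset_adjoin ℚ _ ?_
          rw [hTr]
          exact ⟨i, rfl⟩
        exact IntermediateField.algebraMap_mem N2 (⟨_, h2⟩ : F)
    let _ : Algebra N1 N2 := ((algebraMap N1 M).codRestrict N2.toSubring fun z => hle z.2).toAlgebra
    have _ : IsScalarTower N1 N2 M := IsScalarTower.of_algebraMap_eq fun z => rfl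
    exact Algebra.IsAlgebraic.tower_top (K := N1) N2

theorem finite_of_fg {M : Type} [Field M] (hM : FG M) (K : Type) [Field K] [Algebra K M]
    [Algebra.IsAlgebraic K M] : FiniteDimensional K M := by
  obtain ⟨S, hS⟩ := hM
  have h1 : IntermediateField.adjoin K (S : Set M) = ⊤ := by
    rw [eq_top_iff]
    intro z _
    have hz : z ∈ Subfield.closure (S : Set M) := by
      rw [hS]
      trivial
    have h2 : Subfield.closure (S : Set M) ≤ (IntermediateField.adjoin K (S : Set M)).toSubfield := by
      rw [Subfield.closure_le]
      exact IntermediateField.subset_adjoin K _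
    exact h2 hz
  have h3 : FiniteDimensional K (IntermediateField.adjoin K (S : Set M)) :=
    IntermediateField.finiteDimensional_adjoin fun z _ =>
      (Algebra.IsAlgebraic.isAlgebraic (R := K) z).isIntegral
  rw [h1] at h3
  exact Module.Finite.equiv (IntermediateField.topEquiv (F := K) (E := M)).toLinearEquiv

theorem fg_sub {M : Type} [Field M] [CharZero M] (T : Finset M) (F : IntermediateField ℚ M)
    (hF : F = IntermediateField.adjoin ℚ (T : Set M))
    (F₁ : IntermediateField F M) [FiniteDimensional F F₁] : FG F₁ := by
  classical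
  let b := Module.finBasis F F₁
  have hT : ∀ t ∈ T, t ∈ F := fun t ht => by
    rw [hF]
    exact IntermediateField.subset_adjoin ℚ _ ht
  let g : {t // t ∈ T} → F₁ := fun t => algebraMap F F₁ ⟨t.1, hT t.1 t.2⟩
  refine ⟨Finset.univ.image g ∪ Finset.univ.image b, ?_⟩
  set C := Subfield.closure ((Finset.univ.image g ∪ Finset.univ.image b : Finset F₁) : Set F₁) with hC
  have hFC : ∀ c : F, algebraMap F F₁ c ∈ C := by
    rintro ⟨c, hc⟩
    have key : ∀ z : M, z ∈ IntermediateField.adjoin ℚ (T : Set M) → ∀ (hz : z ∈ F),
        algebraMap F F₁ ⟨z, hz⟩ ∈ C := by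
      intro z hz'
      induction hz' using IntermediateField.adjoin_induction with
      | mem z hzT =>
        intro hz
        apply Subfield.subset_closure
        rw [Finset.coe_union]
        left
        rw [Finset.coe_image]
        exact ⟨⟨z, hzT⟩, Finset.mem_coe.2 (Finset.mem_univ _), rfl⟩
      | algebraMap q =>
        intro hz
        have h1 : algebraMap F F₁ ⟨algebraMap ℚ M q, hz⟩ = ((q : ℚ) : F₁) := by
          rw [← map_ratCast (algebraMap F F₁) q]
          congr 1
        rw [h1]
        exact SubfieldClass.ratCast_mem C q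
      | add x y hx hy h1 h2 =>
        intro hz
        rw [← hF] at hx hy
        exact add_mem (h1 hx) (h2 hy)
      | inv x hx h1 =>
        intro hz
        rw [← hF] at hx
        exact inv_mem (h1 hx)
      | mul x y hx hy h1 h2 =>
        intro hz
        rw [← hF] at hx hy
        exact mul_mem (h1 hx) (h2 hy)
    exact key c (hF ▸ hc) hc
  rw [eq_top_iff]
  intro z _
  rw [← b.sum_repr z]
  refine sum_mem fun i _ => ?_
  rw [Algebra.smul_def]
  refine mul_mem (hFC _) (Subfield.subset_closure ?_)
  rw [Finset.coe_union]
  right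
  rw [Finset.coe_image]
  exact ⟨i, Finset.mem_coe.2 (Finset.mem_univ _), rfl⟩

end Pool.Agent.R410.LW
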