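import Mathlib

/-! A nonzero element of the ideal generated by a polynomial and its derivative. -/

set_option autoImplicit false
set_option linter.all false

open Polynomial

namespace Pool.Agent.R410.LW

theorem clear {R K : Type} [CommRing R] [IsDomain R] [Field K] [Algebra R K] [IsFractionRing R K]
    (p : K[X]) : ∃ (d : R) (q : R[X]), d ≠ 0 ∧ q.map (algebraMap R K) = C (algebraMap R K d) * p := by
  obtain ⟨b, hb⟩ := IsLocalization.integerNormalization_map_to_map (nonZeroDivisors R) p
  refine ⟨b.1, IsLocalization.integerNormalization (nonZeroDivisors R) p,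
    nonZeroDivisors.ne_zero b.2, ?_⟩
  rw [hb]
  ext i
  rw [coeff_C_mul, coeff_smul, Algebra.smul_def]

theorem bezout {A kb : Type} [CommRing A] [IsDomain A] [CharZero A] [Field kb] {ι : A →+* kb}
    (hι : Function.Injective ι) {f : A[X][X]} (hf : f.Monic)
    (hirr : Irreducible (f.map (mapRingHom ι))) :
    ∃ (a b : A[X][X]) (D : A[X]), D ≠ 0 ∧ a * f + b * derivative f = C D := by
  classical
  have hkb : CharZero kb := charZero_of_injective_ringHom hι
  let K1 := FractionRing A[X]
  let K2 := FractionRing kb[X]
  have hmi : Function.Injective (mapRingHom ι) := Polynomial.map_injective ι hι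
  let j : K1 →+* K2 := IsFractionRing.map (K := K1) (L := K2) hmi
  have hj : ∀ p : A[X], j (algebraMap A[X] K1 p) = algebraMap kb[X] K2 (p.map ι) := fun p => by
    show IsFractionRing.map (K := K1) (L := K2) hmi (algebraMap A[X] K1 p) = _
    rw [IsFractionRing.map, IsLocalization.map_eq]
    rfl
  have h2 : Irreducible ((f.map (mapRingHom ι)).map (algebraMap kb[X] K2)) :=
    ((hf.map _).irreducible_iff_irreducible_map_fraction_map (K := K2)).1 hirr
  have hK2 : CharZero K2 :=
    charZero_of_injective_algebraMap (R := kb) (A := K2) (algebraMap kb K2).injective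
  have h3 := h2.separable
  have h4 : (f.map (mapRingHom ι)).map (algebraMap kb[X] K2) =
      (f.map (algebraMap A[X] K1)).map j := by
    rw [Polynomial.map_map, Polynomial.map_map]
    congr 1
    exact RingHom.ext fun p => (hj p).symm
  rw [h4, separable_map] at h3
  obtain ⟨a, b, hab⟩ := h3
  obtain ⟨d1, a', hd1, ha'⟩ := clear (R := A[X]) a
  obtain ⟨d2, b', hd2, hb'⟩ := clear (R := A[X]) b
  refine ⟨C d2 * a', C d1 * b', d1 * d2, mul_ne_zero hd1 hd2, ?_⟩
  apply Polynomial.map_injective (algebraMap A[X] K1) (IsFractionRing.injective A[X] K1)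
  simp only [Polynomial.map_add, Polynomial.map_mul, Polynomial.map_C, map_mul, ha', hb', C_mul]
  rw [← derivative_map]
  linear_combination (C (algebraMap A[X] K1 d1) * C (algebraMap A[X] K1 d2)) * hab

/-- an irreducible monic polynomial generates a prime ideal -/
theorem adj_domain {A kb : Type} [CommRing A] [IsDomain A] [Field kb] {ι : A →+* kb}
    (hι : Function.Injective ι) {f : A[X][X]} (hf : f.Monic)
    (hirr : Irreducible (f.map (mapRingHom ι))) : IsDomain (AdjoinRoot f) := by
  classical
  set g := f.map (mapRingHom ι) with hg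
  have hgm : g.Monic := hf.map _
  have hp : Prime g := hirr.prime
  have hdom : IsDomain (AdjoinRoot g) := by
    exact (Ideal.Quotient.isDomain_iff_prime (Ideal.span {g})).2
      ((Ideal.span_singleton_prime hp.ne_zero).2 hp)
  let J : AdjoinRoot f →+* AdjoinRoot g := AdjoinRoot.lift ((AdjoinRoot.of g).comp (mapRingHom ι))
    (AdjoinRoot.root g) (by
      rw [← eval₂_map, ← hg]
      exact AdjoinRoot.eval₂_root g)
  have hJ : Function.Injective J := by
    rw [injective_iff_map_eq_zero]
    intro b hb
    obtain ⟨p, rfl⟩ := AdjoinRoot.mk_surjective b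
    have e : J (AdjoinRoot.mk f p) = AdjoinRoot.mk g (p.map (mapRingHom ι)) := by
      show AdjoinRoot.lift _ _ _ (AdjoinRoot.mk f p) = _
      rw [AdjoinRoot.lift_mk, ← eval₂_map]
      rw [← AdjoinRoot.algebraMap_eq, ← aeval_def, AdjoinRoot.aeval_eq]
    rw [e, AdjoinRoot.mk_eq_zero] at hb
    rw [AdjoinRoot.mk_eq_zero]
    exact (Polynomial.map_dvd_map _ (Polynomial.map_injective ι hι) hf).1 hb
  exact hJ.isDomain J

end Pool.Agent.R410.LW
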