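import Pool.Agent.R410.LW.Step

/-! The number of the points is a birational invariant. -/

set_option autoImplicit false
set_option linter.all false

open NumberField

namespace Pool.Agent.R410.LW

section
variable {A B : Type} [CommRing A] [IsDomain A] [CommRing B] [IsDomain B] [Algebra A B]

theorem bir_card (hinj : Function.Injective (algebraMap A B)) {a : A} (ha : a ≠ 0)
    (h : ∀ b : B, ∃ (n : ℕ) (c : A), algebraMap A B a ^ n * b = algebraMap A B c) {c : A}
    (hc : a ∣ c) (k : Type) [Field k] :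
    Nat.card {φ : B →+* k // φ (algebraMap A B c) ≠ 0} = Nat.card {ψ : A →+* k // ψ c ≠ 0} := by
  classical
  have hac : ∀ ψ : A →+* k, ψ c ≠ 0 → ψ a ≠ 0 := by
    intro ψ hψ h0
    obtain ⟨b, rfl⟩ := hc
    rw [map_mul, h0, zero_mul] at hψ
    exact hψ rfl
  let g : {φ : B →+* k // φ (algebraMap A B c) ≠ 0} → {ψ : A →+* k // ψ c ≠ 0} := fun φ =>
    ⟨φ.1.comp (algebraMap A B), φ.2⟩
  refine Nat.card_congr (Equiv.ofBijective g ⟨?_, ?_⟩)
  · intro φ φ' hφ
    apply Subtype.ext
    refine RingHom.ext fun b => ?_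
    have e : ∀ z : A, φ.1 (algebraMap A B z) = φ'.1 (algebraMap A B z) := fun z =>
      congrArg (fun w : {ψ : A →+* k // ψ c ≠ 0} => w.1 z) hφ
    obtain ⟨n, z, hz⟩ := h b
    have h1 := congrArg φ.1 hz
    have h2 := congrArg φ'.1 hz
    rw [map_mul, map_pow] at h1 h2
    have h3 : φ.1 (algebraMap A B a) ≠ 0 := hac (φ.1.comp (algebraMap A B)) φ.2
    have h4 : φ.1 (algebraMap A B a) ^ n ≠ 0 := pow_ne_zero n h3
    apply mul_left_cancel₀ h4
    rw [h1, e, e, h2]
  · rintro ⟨ψ, hψ⟩
    let Ba := Localization.Away (algebraMap A B a)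
    let _ : Algebra A Ba := ((algebraMap B Ba).comp (algebraMap A B)).toAlgebra
    have hBi : Function.Injective (algebraMap B Ba) :=
      IsLocalization.injective Ba (powers_le_nonZeroDivisors_of_noZeroDivisors
        ((map_ne_zero_iff _ hinj).2 ha))
    have hloc : IsLocalization.Away a Ba := by
      refine { map_units := ?_, surj := ?_, exists_of_eq := ?_ }
      · rintro ⟨_, n, rfl⟩
        show IsUnit (algebraMap B Ba (algebraMap A B (a ^ n)))
        rw [map_pow, map_pow]
        exact (IsLocalization.Away.algebraMap_isUnit (algebraMap A B a)).pow n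
      · intro z
        obtain ⟨⟨b, ⟨_, n, rfl⟩⟩, hb⟩ := IsLocalization.surj (Submonoid.powers (algebraMap A B a)) z
        obtain ⟨m, x, hx⟩ := h b
        refine ⟨⟨x, ⟨a ^ (n + m), n + m, rfl⟩⟩, ?_⟩
        show z * algebraMap B Ba (algebraMap A B (a ^ (n + m))) = algebraMap B Ba (algebraMap A B x)
        rw [← hx, map_mul, ← hb, pow_add, map_mul, map_mul, map_pow, map_pow]
        simp only [map_pow]
        ring
      · intro x y hxy
        refine ⟨1, ?_⟩
        rw [hinj (hBi hxy)]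
    have hu : IsUnit (ψ a) := isUnit_iff_ne_zero.2 (hac ψ hψ)
    have hl : ∀ x : A, IsLocalization.Away.lift (S := Ba) a hu (algebraMap B Ba (algebraMap A B x)) =
        ψ x := fun x => IsLocalization.Away.lift_eq (S := Ba) a hu x
    refine ⟨⟨(IsLocalization.Away.lift (S := Ba) a hu).comp (algebraMap B Ba), ?_⟩, ?_⟩
    · rw [RingHom.comp_apply, hl]
      exact hψ
    · apply Subtype.ext
      exact RingHom.ext fun x => hl x

theorem landau_up {d : ℕ} {L : Type} [Field L] [NumberField L]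
    (hinj : Function.Injective (algebraMap A B)) {a : A} (ha : a ≠ 0)
    (h : ∀ b : B, ∃ (n : ℕ) (c : A), algebraMap A B a ^ n * b = algebraMap A B c)
    (hA : Landau A d L) : Landau B d L := by
  obtain ⟨s, hs, hA⟩ := hA
  refine ⟨algebraMap A B (a * s), (map_ne_zero_iff _ hinj).2 (mul_ne_zero ha hs), ?_⟩
  intro t ht hst
  obtain ⟨t', rfl⟩ := hst
  obtain ⟨n, z, hz⟩ := h t'
  have hz0 : z ≠ 0 := by
    rintro rfl
    rw [map_zero] at hz
    rcases mul_eq_zero.1 hz with h1 | h1
    · exact pow_ne_zero n ((map_ne_zero_iff _ hinj).2 ha) h1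
    · rw [h1, mul_zero] at ht
      exact ht rfl
  obtain ⟨C, N, hC, hN, g⟩ := hA (a * s * z) (mul_ne_zero (mul_ne_zero ha hs) hz0)
    ⟨a * z, by ring⟩
  refine ⟨C, N, hC, hN, ?_⟩
  intro k _ _ hk
  have h1 := g k hk
  rw [← bir_card hinj ha h ⟨s * z, by ring⟩ k] at h1
  have h2 : Nat.card {φ : B →+* k // φ (algebraMap A B (a * s) * t') ≠ 0} =
      Nat.card {φ : B →+* k // φ (algebraMap A B (a * s * z)) ≠ 0} := by
    refine Nat.card_congr (Equiv.subtypeEquivRight fun φ => ?_)
    have e : algebraMap A B (a * s * z) = algebraMap A B a ^ n * (algebraMap A B (a * s) * t') := by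
      rw [map_mul, ← hz]
      ring
    rw [e, map_mul φ (algebraMap A B a ^ n), map_pow, ne_eq, ne_eq, mul_eq_zero, not_or]
    constructor
    · intro h3
      refine ⟨?_, h3⟩
      refine pow_ne_zero n fun h5 => h3 ?_
      rw [map_mul, map_mul, map_mul, h5, zero_mul, zero_mul]
    · exact fun h3 => h3.2
  rw [h2]
  exact h1

theorem landau_down {d : ℕ} {L : Type} [Field L] [NumberField L]
    (hinj : Function.Injective (algebraMap A B)) {a : A} (ha : a ≠ 0)
    (h : ∀ b : B, ∃ (n : ℕ) (c : A), algebraMap A B a ^ n * b = algebraMap A B c)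
    (hB : Landau B d L) : Landau A d L := by
  obtain ⟨s, hs, hB⟩ := hB
  obtain ⟨n, c, hc⟩ := h s
  have hc0 : c ≠ 0 := by
    rintro rfl
    rw [map_zero] at hc
    rcases mul_eq_zero.1 hc with h1 | h1
    · exact pow_ne_zero n ((map_ne_zero_iff _ hinj).2 ha) h1
    · exact hs h1
  refine ⟨a * c, mul_ne_zero ha hc0, ?_⟩
  intro t ht hst
  obtain ⟨z, rfl⟩ := hst
  obtain ⟨C, N, hC, hN, g⟩ := hB (algebraMap A B (a * c * z)) ((map_ne_zero_iff _ hinj).2 ht)
    ⟨algebraMap A B a ^ n * algebraMap A B (a * z), by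
      rw [map_mul, map_mul, ← hc, map_mul]
      ring⟩
  refine ⟨C, N, hC, hN, ?_⟩
  intro k _ _ hk
  have h1 := g k hk
  rwa [bir_card hinj ha h ⟨c * z, by ring⟩ k] at h1

theorem pow_den [Algebra.FiniteType A B]
    (h : ∀ c : B, ∃ a : A, a ≠ 0 ∧ ∃ b : A, algebraMap A B a * c = algebraMap A B b) :
    ∃ a : A, a ≠ 0 ∧ ∀ b : B, ∃ (n : ℕ) (c : A), algebraMap A B a ^ n * b = algebraMap A B c := by
  classical
  obtain ⟨S, hS⟩ := (inferInstance : Algebra.FiniteType A B).out
  choose den hden0 num hnum using h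
  set a := ∏ s ∈ S, den s with ha
  have ha0 : a ≠ 0 := Finset.prod_ne_zero_iff.2 fun s _ => hden0 s
  have hgen : ∀ s ∈ S, ∃ c : A, algebraMap A B a * s = algebraMap A B c := by
    intro s hs
    refine ⟨(∏ s' ∈ S.erase s, den s') * num s, ?_⟩
    rw [ha, ← Finset.prod_erase_mul S _ hs, map_mul, mul_assoc, hnum, map_mul]
  refine ⟨a, ha0, fun b => ?_⟩
  have hb : b ∈ Algebra.adjoin A (S : Set B) := by
    rw [hS]
    trivial
  induction hb using Algebra.adjoin_induction with
  | mem s hs =>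
    obtain ⟨c, hc⟩ := hgen s hs
    exact ⟨1, c, by rw [pow_one, hc]⟩
  | algebraMap c => exact ⟨0, c, by rw [pow_zero, one_mul]⟩
  | add x y _ _ hx hy =>
    obtain ⟨n, c, hc⟩ := hx
    obtain ⟨m, e, he⟩ := hy
    refine ⟨n + m, a ^ m * c + a ^ n * e, ?_⟩
    rw [map_add, map_mul, map_mul, map_pow, map_pow, ← hc, ← he]
    ring
  | mul x y _ _ hx hy =>
    obtain ⟨n, c, hc⟩ := hx
    obtain ⟨m, e, he⟩ := hy
    refine ⟨n + m, c * e, ?_⟩
    rw [map_mul, ← hc, ← he]
    ring

end

/-- **Birational invariance** -/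
theorem transfer {A B M : Type} [CommRing A] [IsDomain A] [CommRing B] [IsDomain B] [Field M]
    [Algebra A M] [IsFractionRing A M] [Algebra B M] [IsFractionRing B M] [Algebra.FiniteType ℤ A]
    [Algebra.FiniteType ℤ B] {d : ℕ} {L : Type} [Field L] [NumberField L] (hA : Landau A d L) :
    Landau B d L := by
  classical
  let fA : A →ₐ[ℤ] M := (algebraMap A M).toIntAlgHom
  let fB : B →ₐ[ℤ] M := (algebraMap B M).toIntAlgHom
  let C : Subalgebra ℤ M := fA.range ⊔ fB.range
  have hAfg : fA.range.FG := by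
    rw [← Algebra.map_top]
    exact ((Algebra.FiniteType.out : (⊤ : Subalgebra ℤ A).FG)).map fA
  have hBfg : fB.range.FG := by
    rw [← Algebra.map_top]
    exact ((Algebra.FiniteType.out : (⊤ : Subalgebra ℤ B).FG)).map fB
  have hCfg : C.FG := hAfg.sup hBfg
  have hCft : Algebra.FiniteType ℤ C := C.fg_iff_finiteType.1 hCfg
  let _ : Algebra A C := ((algebraMap A M).codRestrict C.toSubring fun x =>
    (le_sup_left : fA.range ≤ C) ⟨x, rfl⟩).toAlgebra
  let _ : Algebra B C := ((algebraMap B M).codRestrict C.toSubring fun x =>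
    (le_sup_right : fB.range ≤ C) ⟨x, rfl⟩).toAlgebra
  have hAC : ∀ x : A, ((algebraMap A C x : C) : M) = algebraMap A M x := fun x => rfl
  have hBC : ∀ x : B, ((algebraMap B C x : C) : M) = algebraMap B M x := fun x => rfl
  have iA : Function.Injective (algebraMap A C) := by
    intro x y h
    apply IsFractionRing.injective A M
    rw [← hAC, ← hAC, h]
  have iB : Function.Injective (algebraMap B C) := by
    intro x y h
    apply IsFractionRing.injective B M
    rw [← hBC, ← hBC, h]
  have : Algebra.FiniteType A C := Algebra.FiniteType.of_restrictScalars_finiteType ℤ A C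
  have : Algebra.FiniteType B C := Algebra.FiniteType.of_restrictScalars_finiteType ℤ B C
  obtain ⟨a, ha0, ha⟩ := pow_den (A := A) (B := C) fun c => by
    obtain ⟨x, y, hy, hxy⟩ := IsFractionRing.div_surjective (A := A) (c : M)
    have hy0 : y ≠ 0 := nonZeroDivisors.ne_zero hy
    refine ⟨y, hy0, x, ?_⟩
    apply Subtype.ext
    show ((algebraMap A C y : C) : M) * (c : M) = _
    rw [hAC, hAC, ← hxy, mul_div_cancel₀]
    exact (map_ne_zero_iff _ (IsFractionRing.injective A M)).2 hy0
  obtain ⟨b, hb0, hb⟩ := pow_den (A := B) (B := C) fun c => by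
    obtain ⟨x, y, hy, hxy⟩ := IsFractionRing.div_surjective (A := B) (c : M)
    have hy0 : y ≠ 0 := nonZeroDivisors.ne_zero hy
    refine ⟨y, hy0, x, ?_⟩
    apply Subtype.ext
    show ((algebraMap B C y : C) : M) * (c : M) = _
    rw [hBC, hBC, ← hxy, mul_div_cancel₀]
    exact (map_ne_zero_iff _ (IsFractionRing.injective B M)).2 hy0
  exact landau_down iB hb0 hb (landau_up iA ha0 ha hA)

/-- number fields -/
theorem landau_zero (L : Type) [Field L] [NumberField L] : Landau (𝓞 L) 0 L := by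
  refine ⟨1, one_ne_zero, fun t ht _ => ⟨0, Ideal.absNorm (Ideal.span {t}), le_rfl, ?_, ?_⟩⟩
  · rw [ne_eq, Ideal.absNorm_eq_zero_iff, Ideal.span_singleton_eq_bot]
    exact ht
  · intro k _ _ hk
    have h1 : Nat.card {φ : 𝓞 L →+* k // φ t ≠ 0} = Nat.card (𝓞 L →+* k) := by
      refine Nat.card_congr (Equiv.subtypeUnivEquiv fun φ => ?_)
      intro h0
      apply hk
      obtain ⟨c, hc⟩ := Ideal.mem_span_singleton.1 (Ideal.absNorm_mem (Ideal.span {t}))
      have h3 := congrArg φ hc
      rw [map_mul, h0, zero_mul, map_natCast] at h3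
      exact h3
    rw [h1]
    simp

end Pool.Agent.R410.LW
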