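import Mathlib

/-! The structure of the fields of transcendence degree one over a field. -/

set_option autoImplicit false
set_option linter.all false

open Polynomial
open scoped IntermediateField.algebraAdjoinAdjoin

namespace Pool.Agent.R410.LW

theorem alg_poly {F M : Type} [Field F] [Field M] [Algebra F M] (x : M)
    [FiniteDimensional (IntermediateField.adjoin F {x}) M] (α : M) :
    letI : Algebra F[X] M := (aeval x : F[X] →ₐ[F] M).toRingHom.toAlgebra
    IsAlgebraic F[X] α := by
  classical
  letI ia : Algebra F[X] M := (aeval x : F[X] →ₐ[F] M).toRingHom.toAlgebra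
  have h1 : IsAlgebraic (IntermediateField.adjoin F {x}) α := Algebra.IsAlgebraic.isAlgebraic α
  have h2 : IsAlgebraic (Algebra.adjoin F ({x} : Set M)) α :=
    (IsFractionRing.isAlgebraic_iff (Algebra.adjoin F ({x} : Set M))
      (IntermediateField.adjoin F {x}) M).2 h1
  obtain ⟨p, hp0, hp⟩ := h2
  let g : F[X] →+* Algebra.adjoin F ({x} : Set M) :=
    (aeval (⟨x, Algebra.subset_adjoin (Set.mem_singleton x)⟩ : Algebra.adjoin F ({x} : Set M)) :
      F[X] →ₐ[F] _).toRingHom
  have hg : ∀ q : F[X], ((g q : Algebra.adjoin F ({x} : Set M)) : M) = aeval x q := fun q => by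
    have := (Polynomial.aeval_algebraMap_apply M
      (⟨x, Algebra.subset_adjoin (Set.mem_singleton x)⟩ : Algebra.adjoin F ({x} : Set M)) q)
    exact this.symm
  have hgs : Function.Surjective g := by
    rintro ⟨z, hz⟩
    rw [Algebra.adjoin_singleton_eq_range_aeval] at hz
    obtain ⟨q, hq⟩ := hz
    exact ⟨q, Subtype.ext ((hg q).trans hq)⟩
  obtain ⟨p', rfl⟩ := Polynomial.map_surjective g hgs p
  refine ⟨p', ?_, ?_⟩
  · rintro rfl
    exact hp0 (Polynomial.map_zero _)
  · rw [aeval_def, eval₂_map] at hp
    rw [aeval_def]
    have e : (algebraMap (Algebra.adjoin F ({x} : Set M)) M).comp g = algebraMap F[X] M :=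
      RingHom.ext hg
    rwa [e] at hp

/-- **The structure** of a field `M`, finite over the field `F(x)`: it is generated by `x` and `θ`
over a finite extension `F₁` of `F`, where `θ` is a root of an absolutely irreducible polynomial. -/
theorem structure_one {F M : Type} [Field F] [CharZero F] [Field M] [Algebra F M] (x : M)
    (hx : Transcendental F x) [FiniteDimensional (IntermediateField.adjoin F {x}) M] :
    ∃ (F₁ : IntermediateField F M) (_ : FiniteDimensional F F₁) (θ : M) (f : F₁[X][X])
      (Om : Type) (_ : Field Om) (_ : IsAlgClosed Om) (_ : Algebra F₁ Om), f.Monic ∧ 0 < f.natDegree ∧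
      Irreducible (f.map (mapRingHom (algebraMap F₁ Om))) ∧
      (∀ p : F₁[X][X], eval₂ (eval₂RingHom (algebraMap F₁ M) x) θ p = 0 ↔ f ∣ p) ∧
      IntermediateField.adjoin F {x, θ} = ⊤ := by
  classical
  have hM0 : CharZero M := charZero_of_injective_algebraMap (algebraMap F M).injective
  set K1 := IntermediateField.adjoin F {x} with hK1
  obtain ⟨α, hα⟩ := Field.exists_primitive_element K1 M
  letI ia : Algebra F[X] M := (aeval x : F[X] →ₐ[F] M).toRingHom.toAlgebra
  have hia : ∀ p : F[X], algebraMap F[X] M p = aeval x p := fun p => rfl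
  obtain ⟨a, ha0, ha⟩ := (alg_poly (F := F) x α).exists_integral_multiple
  set θ := a • α with hθ
  have hθe : θ = aeval x a * α := by rw [hθ, Algebra.smul_def, hia]
  have hax : aeval x a ≠ 0 := fun h => ha0 (transcendental_iff.1 hx a h)
  -- generation
  have hgen : IntermediateField.adjoin F {x, θ} = ⊤ := by
    set N := IntermediateField.adjoin F {x, θ} with hN
    have hxN : x ∈ N := IntermediateField.subset_adjoin F _ (by simp)
    have hθN : θ ∈ N := IntermediateField.subset_adjoin F _ (by simp)
    have hKN : K1 ≤ N := by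
      rw [hK1, IntermediateField.adjoin_le_iff]
      rintro _ rfl
      exact hxN
    have haN : aeval x a ∈ N := by
      have := (Polynomial.aeval_algebraMap_apply M (⟨x, hxN⟩ : N) a)
      change aeval x a = ((aeval (⟨x, hxN⟩ : N) a : N) : M) at this
      rw [this]
      exact Subtype.mem _
    have hαN : α ∈ N := by
      have h1 : α = θ / aeval x a := by
        rw [hθe, mul_div_cancel_left₀ _ hax]
      rw [h1]
      exact div_mem hθN haN
    have h2 : IntermediateField.adjoin K1 {α} ≤ IntermediateField.extendScalars hKN := by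
      rw [IntermediateField.adjoin_le_iff]
      rintro _ rfl
      exact hαN
    rw [hα] at h2
    rw [eq_top_iff]
    intro z _
    exact h2 (IntermediateField.mem_top (x := z))
  -- the algebraic closure
  let Mb := AlgebraicClosure M
  have hMb0 : CharZero Mb := charZero_of_injective_algebraMap (algebraMap M Mb).injective
  let Om : IntermediateField F Mb := algebraicClosure F Mb
  have hOmc : IsAlgClosed Om := (algebraicClosure.isAlgClosure F Mb).isAlgClosed
  have hOma : Algebra.IsAlgebraic F Om := (algebraicClosure.isAlgClosure F Mb).isAlgebraic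
  have hxb : Transcendental Om (algebraMap M Mb x) := by
    intro h
    have h1 : IsAlgebraic F (algebraMap M Mb x) := h.restrictScalars F
    exact hx ((isAlgebraic_algebraMap_iff (algebraMap M Mb).injective).1 h1)
  letI ib : Algebra Om[X] Mb := (aeval (algebraMap M Mb x) : Om[X] →ₐ[Om] Mb).toRingHom.toAlgebra
  have hib : ∀ p : Om[X], algebraMap Om[X] Mb p = aeval (algebraMap M Mb x) p := fun p => rfl
  have hibi : Function.Injective (algebraMap Om[X] Mb) := transcendental_iff_injective.1 hxb
  have htf : Module.IsTorsionFree Om[X] Mb := Module.isTorsionFree_iff_algebraMap_injective.mpr hibi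
  let j : F →+* Om := algebraMap F Om
  have hθb : IsIntegral Om[X] (algebraMap M Mb θ) := by
    refine ha.map_of_comp_eq (mapRingHom j) (algebraMap M Mb) ?_
    apply Polynomial.ringHom_ext
    · intro c
      rw [RingHom.comp_apply, RingHom.comp_apply, coe_mapRingHom, Polynomial.map_C, hib, hia,
        aeval_C, aeval_C]
      rfl
    · rw [RingHom.comp_apply, RingHom.comp_apply, coe_mapRingHom, Polynomial.map_X, hib, hia,
        aeval_X, aeval_X]
  set g : Om[X][X] := minpoly Om[X] (algebraMap M Mb θ) with hg
  have hgm : g.Monic := minpoly.monic hθb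
  have hgirr : Irreducible g := minpoly.irreducible hθb
  have hgpos : 0 < g.natDegree := minpoly.natDegree_pos hθb
  have hgroot : aeval (algebraMap M Mb θ) g = 0 := minpoly.aeval _ _
  -- the coefficients are in `M`
  have hco : ∀ i l : ℕ, ∃ m : M, algebraMap M Mb m = (((g.coeff i).coeff l : Om) : Mb) := by
    intro i l
    have h1 : (((g.coeff i).coeff l : Om) : Mb) ∈ (⊥ : IntermediateField M Mb) := by
      rw [InfiniteGalois.mem_bot_iff_fixed]
      intro σ
      have hσOm : ∀ z : Om, σ (z : Mb) ∈ Om := by
        intro z
        rw [mem_algebraicClosure_iff]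
        have hz := mem_algebraicClosure_iff.1 z.2
        exact hz.algHom ((σ : Mb →ₐ[M] Mb).restrictScalars F)
      let τ : Om →+* Om := ((σ : Mb →+* Mb).comp (algebraMap Om Mb)).codRestrict Om.toSubring
        (fun z => hσOm z)
      have hτ : ∀ z : Om, ((τ z : Om) : Mb) = σ (z : Mb) := fun z => rfl
      have hroot : aeval (algebraMap M Mb θ) (g.map (mapRingHom τ)) = 0 := by
        have e : aeval (algebraMap M Mb θ) (g.map (mapRingHom τ)) =
            σ (aeval (algebraMap M Mb θ) g) := by
          rw [aeval_def, aeval_def, eval₂_map]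
          have h2 : σ (eval₂ (algebraMap Om[X] Mb) (algebraMap M Mb θ) g) =
              eval₂ ((σ : Mb →+* Mb).comp (algebraMap Om[X] Mb)) (σ (algebraMap M Mb θ)) g :=
            Polynomial.hom_eval₂ g _ (σ : Mb →+* Mb) _
          rw [h2, AlgEquiv.commutes]
          congr 1
          apply Polynomial.ringHom_ext
          · intro c
            rw [RingHom.comp_apply, RingHom.comp_apply, coe_mapRingHom, Polynomial.map_C, hib, hib,
              aeval_C, aeval_C]
            exact hτ c
          · rw [RingHom.comp_apply, RingHom.comp_apply, coe_mapRingHom, Polynomial.map_X, hib,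
              aeval_X]
            exact (σ.commutes x).symm
        rw [e, hgroot, map_zero]
      have hdvd : g ∣ g.map (mapRingHom τ) := minpoly.isIntegrallyClosed_dvd hθb hroot
      have heq : g.map (mapRingHom τ) = g :=
        eq_of_monic_of_dvd_of_natDegree_le hgm (hgm.map _) hdvd (by rw [hgm.natDegree_map])
      have h3 := congrArg (fun p : Om[X][X] => (p.coeff i).coeff l) heq
      simp only [coeff_map, coe_mapRingHom] at h3
      rw [← hτ, h3]
    rw [IntermediateField.mem_bot] at h1
    exact h1
  choose m hm using hco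
  -- the field of the coefficients
  set T : Finset M := (Finset.range (g.natDegree + 1)).biUnion fun i =>
    (Finset.range ((g.coeff i).natDegree + 1)).image fun l => m i l with hT
  have hmalg : ∀ i l, IsAlgebraic F (m i l) := by
    intro i l
    have h1 : IsAlgebraic F (algebraMap M Mb (m i l)) := by
      rw [hm]
      exact mem_algebraicClosure_iff.1 (Subtype.mem _)
    exact (isAlgebraic_algebraMap_iff (algebraMap M Mb).injective).1 h1
  let F₁ := IntermediateField.adjoin F (T : Set M)
  have hfd : FiniteDimensional F F₁ := IntermediateField.finiteDimensional_adjoin fun z hz => by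
    rw [hT, Finset.mem_coe, Finset.mem_biUnion] at hz
    obtain ⟨i, -, hz⟩ := hz
    obtain ⟨l, -, rfl⟩ := Finset.mem_image.1 hz
    exact (hmalg i l).isIntegral
  have hmem : ∀ z : F₁, algebraMap M Mb z ∈ Om := by
    intro z
    rw [mem_algebraicClosure_iff]
    have h1 : IsAlgebraic F (z : M) :=
      (isAlgebraic_algebraMap_iff (algebraMap F₁ M).injective).2 (Algebra.IsAlgebraic.isAlgebraic z)
    exact h1.algebraMap
  let ι : F₁ →+* Om := ((algebraMap M Mb).comp (algebraMap F₁ M)).codRestrict Om.toSubring
    (fun z => hmem z)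
  have hι : ∀ z : F₁, ((ι z : Om) : Mb) = algebraMap M Mb z := fun z => rfl
  have hlift : g ∈ lifts (mapRingHom ι) := by
    rw [lifts_iff_coeff_lifts]
    intro i
    show g.coeff i ∈ Set.range (mapRingHom ι)
    have h1 : g.coeff i ∈ lifts ι := by
      rw [lifts_iff_coeff_lifts]
      intro l
      by_cases hi : i ≤ g.natDegree
      · by_cases hl : l ≤ (g.coeff i).natDegree
        · refine ⟨⟨m i l, IntermediateField.subset_adjoin F _ ?_⟩, ?_⟩
          · rw [hT, Finset.mem_coe, Finset.mem_biUnion]
            exact ⟨i, Finset.mem_range.2 (by omega), Finset.mem_image.2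
              ⟨l, Finset.mem_range.2 (by omega), rfl⟩⟩
          · apply Subtype.ext
            rw [hι]
            exact hm i l
        · refine ⟨0, ?_⟩
          rw [map_zero, coeff_eq_zero_of_natDegree_lt (by omega)]
      · refine ⟨0, ?_⟩
        rw [map_zero, coeff_eq_zero_of_natDegree_lt (p := g) (by omega), coeff_zero]
    obtain ⟨p, hp⟩ := (lifts_iff_set_range _).1 h1
    exact ⟨p, hp⟩
  obtain ⟨f, hfg, hfdeg, hfm⟩ := lifts_and_natDegree_eq_and_monic hlift hgm
  letI ic : Algebra F₁ Om := ι.toAlgebra
  have hιi : Function.Injective ι := ι.injective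
  refine ⟨F₁, hfd, θ, f, Om, inferInstance, hOmc, ic, hfm, by rw [hfdeg]; exact hgpos, ?_, ?_, hgen⟩
  · show Irreducible (f.map (mapRingHom ι))
    rw [hfg]
    exact hgirr
  · intro p
    have e : aeval (algebraMap M Mb θ) (p.map (mapRingHom ι)) =
        algebraMap M Mb (eval₂ (eval₂RingHom (algebraMap F₁ M) x) θ p) := by
      rw [aeval_def, eval₂_map, Polynomial.hom_eval₂]
      congr 1
      apply Polynomial.ringHom_ext
      · intro c
        rw [RingHom.comp_apply, RingHom.comp_apply, coe_mapRingHom, Polynomial.map_C, hib, aeval_C,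
          coe_eval₂RingHom, eval₂_C]
        exact hι c
      · rw [RingHom.comp_apply, RingHom.comp_apply, coe_mapRingHom, Polynomial.map_X, hib, aeval_X,
          coe_eval₂RingHom, eval₂_X]
    rw [← map_dvd_map (mapRingHom ι) (Polynomial.map_injective ι hιi) hfm, hfg, hg,
      ← minpoly.isIntegrallyClosed_dvd_iff hθb, e, map_eq_zero]

end Pool.Agent.R410.LW
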