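import Pool.Agent.Y890.SP.BN
import Pool.Agent.R410.PW.Weil

/-! The theorem of Bertini and Noether for plane curves. -/

set_option autoImplicit false
set_option linter.all false

open Polynomial

namespace Pool.Agent.R410.LW

/-- polynomials in one variable as polynomials in a family of one variable -/
noncomputable def eU (R : Type) [CommRing R] : R[X] ≃+* MvPolynomial Unit R :=
  (MvPolynomial.pUnitAlgEquiv R).symm.toRingEquiv

theorem eU_C {R : Type} [CommRing R] (a : R) : eU R (C a) = MvPolynomial.C a := by
  show (MvPolynomial.pUnitAlgEquiv R).symm (C a) = MvPolynomial.C a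
  rw [← Polynomial.algebraMap_eq, AlgEquiv.commutes]
  rfl

theorem eU_X {R : Type} [CommRing R] : eU R X = MvPolynomial.X () := by
  show (MvPolynomial.pUnitAlgEquiv R).symm X = MvPolynomial.X ()
  rw [AlgEquiv.symm_apply_eq]
  simp

theorem eU_map {R S : Type} [CommRing R] [CommRing S] (φ : R →+* S) (p : R[X]) :
    eU S (p.map φ) = MvPolynomial.map φ (eU R p) := by
  have h : ((eU S).toRingHom.comp (mapRingHom φ)) = (MvPolynomial.map φ).comp (eU R).toRingHom := by
    apply Polynomial.ringHom_ext
    · intro a
      show eU S ((C a).map φ) = MvPolynomial.map φ (eU R (C a))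
      rw [Polynomial.map_C, eU_C, eU_C, MvPolynomial.map_C]
    · show eU S ((X : R[X]).map φ) = MvPolynomial.map φ (eU R X)
      rw [Polynomial.map_X, eU_X, eU_X, MvPolynomial.map_X]
  exact congrArg (fun g => g p) h

/-- **Bertini–Noether** for plane curves -/
theorem bn_poly {A k kb : Type} [CommRing A] [IsDomain A] [Field k] [Algebra A k]
    [IsFractionRing A k] [Field kb] [Algebra k kb] [IsAlgClosed kb] (f : A[X][X]) (hf : f.Monic)
    (h0 : 0 < f.natDegree)
    (hirr : Irreducible (f.map (mapRingHom ((algebraMap k kb).comp (algebraMap A k))))) :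
    ∃ D : A, D ≠ 0 ∧ ∀ (F : Type) [Field F] (φ : A →+* F), φ D ≠ 0 →
      Irreducible (f.map (mapRingHom φ)) := by
  classical
  set m : (MvPolynomial Unit A)[X] := f.map (eU A).toRingHom with hm
  have hmm : m.Monic := hf.map _
  have hmd : m.natDegree = f.natDegree := hf.natDegree_map _
  have hmap : ∀ {F : Type} [Field F] (φ : A →+* F), m.map (MvPolynomial.map φ) =
      (f.map (mapRingHom φ)).map (eU F).toRingHom := by
    intro F _ φ
    rw [hm, Polynomial.map_map, Polynomial.map_map]
    congr 1
    exact RingHom.ext fun p => (eU_map φ p).symm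
  obtain ⟨D, hD, h⟩ := Pool.Agent.Y890.SP.bn_all (k := k) (kb := kb) m hmm f.natDegree hmd h0 (by
    intro a b ha hb hfac
    obtain ⟨u, v, hu, hv, hua, hvb, huv⟩ := hfac
    rw [hmap] at huv
    set g := f.map (mapRingHom ((algebraMap k kb).comp (algebraMap A k))) with hg
    have hirr' : Irreducible (g.map (eU kb).toRingHom) := by
      have := (MulEquiv.irreducible_iff (Polynomial.mapEquiv (eU kb)).toMulEquiv (x := g)).2 hirr
      exact this
    rw [← huv] at hirr'
    rcases hirr'.isUnit_or_isUnit rfl with h1 | h1
    · have := hu.eq_one_of_isUnit h1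
      rw [this, natDegree_one] at hua
      omega
    · have := hv.eq_one_of_isUnit h1
      rw [this, natDegree_one] at hvb
      omega)
  refine ⟨D, hD, fun F _ φ hφ => ?_⟩
  have h1 := h F φ hφ
  rw [hmap] at h1
  exact (MulEquiv.irreducible_iff (Polynomial.mapEquiv (eU F)).toMulEquiv
    (x := f.map (mapRingHom φ))).1 h1

end Pool.Agent.R410.LW
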