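import Pool.Agent.R410.LW.BN1
import Pool.Agent.TH958.An.Pts

/-! Points of a family of plane curves with values in a finite field. -/

set_option autoImplicit false
set_option linter.all false

open Polynomial

namespace Pool.Agent.R410.LW

section
variable {A : Type} [CommRing A] {k : Type} [Field k]

/-- the value at a point -/
noncomputable def ev (ψ : A →+* k) (z : k × k) : A[X][X] →+* k :=
  eval₂RingHom (eval₂RingHom ψ z.1) z.2

theorem ev_C (ψ : A →+* k) (z : k × k) (p : A[X]) : ev ψ z (C p) = eval₂ ψ z.1 p := by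
  unfold ev
  rw [coe_eval₂RingHom, eval₂_C, coe_eval₂RingHom]

theorem ev_X (ψ : A →+* k) (z : k × k) : ev ψ z X = z.2 := by
  unfold ev
  rw [coe_eval₂RingHom, eval₂_X]

theorem ev_eq (ψ : A →+* k) (z : k × k) (p : A[X][X]) :
    ev ψ z p = evalEval z.1 z.2 (p.map (mapRingHom ψ)) := by
  have h : ev ψ z = (evalEvalRingHom z.1 z.2).comp (mapRingHom (mapRingHom ψ)) := by
    apply Polynomial.ringHom_ext
    · intro p
      rw [ev_C, RingHom.comp_apply, coe_mapRingHom, Polynomial.map_C, coe_mapRingHom,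
        coe_evalEvalRingHom, evalEval_C, eval_map]
    · rw [ev_X, RingHom.comp_apply, coe_mapRingHom, Polynomial.map_X, coe_evalEvalRingHom,
        evalEval_X]
  exact congrArg (fun g => g p) h

theorem ev_eq' (ψ : A →+* k) (z : k × k) (p : A[X][X]) :
    ev ψ z p = (p.map (eval₂RingHom ψ z.1)).eval z.2 := by
  unfold ev
  rw [coe_eval₂RingHom, eval_map]

/-- the points of the family -/
noncomputable def homEquiv (f T : A[X][X]) :
    {φ : AdjoinRoot f →+* k // φ (AdjoinRoot.mk f T) ≠ 0} ≃
      Σ ψ : A →+* k, {z : k × k // ev ψ z f = 0 ∧ ev ψ z T ≠ 0} where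
  toFun φ := ⟨(φ.1.comp (AdjoinRoot.of f)).comp C,
    (φ.1 (AdjoinRoot.of f X), φ.1 (AdjoinRoot.root f)), by
      have h : ev ((φ.1.comp (AdjoinRoot.of f)).comp C)
          (φ.1 (AdjoinRoot.of f X), φ.1 (AdjoinRoot.root f)) = φ.1.comp (AdjoinRoot.mk f) := by
        apply Polynomial.ringHom_ext
        · intro p
          rw [ev_C]
          have h2 : (eval₂RingHom ((φ.1.comp (AdjoinRoot.of f)).comp C)
              (φ.1 (AdjoinRoot.of f X))) = φ.1.comp (AdjoinRoot.of f) := by
            apply Polynomial.ringHom_ext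
            · intro a
              rw [coe_eval₂RingHom, eval₂_C]
              rfl
            · rw [coe_eval₂RingHom, eval₂_X]
              rfl
          exact congrArg (fun g => g p) h2
        · rw [ev_X]
          show φ.1 (AdjoinRoot.root f) = φ.1 (AdjoinRoot.mk f X)
          rw [AdjoinRoot.mk_X]
      constructor
      · rw [h, RingHom.comp_apply, AdjoinRoot.mk_self, map_zero]
      · rw [h]
        exact φ.2⟩
  invFun w := ⟨AdjoinRoot.lift (eval₂RingHom w.1 w.2.1.1) w.2.1.2 w.2.2.1, by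
    rw [AdjoinRoot.lift_mk]
    exact w.2.2.2⟩
  left_inv φ := by
    apply Subtype.ext
    refine RingHom.ext fun b => ?_
    obtain ⟨p, rfl⟩ := AdjoinRoot.mk_surjective b
    rw [AdjoinRoot.lift_mk]
    have h : (eval₂RingHom (eval₂RingHom ((φ.1.comp (AdjoinRoot.of f)).comp C)
        (φ.1 (AdjoinRoot.of f X))) (φ.1 (AdjoinRoot.root f))) = φ.1.comp (AdjoinRoot.mk f) := by
      apply Polynomial.ringHom_ext
      · intro p
        rw [coe_eval₂RingHom, eval₂_C]
        have h2 : (eval₂RingHom ((φ.1.comp (AdjoinRoot.of f)).comp C)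
            (φ.1 (AdjoinRoot.of f X))) = φ.1.comp (AdjoinRoot.of f) := by
          apply Polynomial.ringHom_ext
          · intro a
            rw [coe_eval₂RingHom, eval₂_C]
            rfl
          · rw [coe_eval₂RingHom, eval₂_X]
            rfl
        exact congrArg (fun g => g p) h2
      · rw [coe_eval₂RingHom, eval₂_X]
        show φ.1 (AdjoinRoot.root f) = φ.1 (AdjoinRoot.mk f X)
        rw [AdjoinRoot.mk_X]
    exact congrArg (fun g => g p) h
  right_inv w := by
    rcases w with ⟨ψ, z, h1, h2⟩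
    have e1 : ((AdjoinRoot.lift (eval₂RingHom ψ z.1) z.2 h1).comp (AdjoinRoot.of f)).comp C = ψ := by
      refine RingHom.ext fun a => ?_
      rw [RingHom.comp_apply, RingHom.comp_apply, AdjoinRoot.lift_of, coe_eval₂RingHom, eval₂_C]
    have e2 : AdjoinRoot.lift (eval₂RingHom ψ z.1) z.2 h1 (AdjoinRoot.of f X) = z.1 := by
      rw [AdjoinRoot.lift_of, coe_eval₂RingHom, eval₂_X]
    have e3 : AdjoinRoot.lift (eval₂RingHom ψ z.1) z.2 h1 (AdjoinRoot.root f) = z.2 :=
      AdjoinRoot.lift_root h1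
    have gen : ∀ (ψ' : A →+* k) (z' : k × k) (h : ev ψ' z' f = 0 ∧ ev ψ' z' T ≠ 0), ψ' = ψ → z' = z →
        (⟨ψ', z', h⟩ : Σ ψ : A →+* k, {z : k × k // ev ψ z f = 0 ∧ ev ψ z T ≠ 0}) =
          ⟨ψ, z, h1, h2⟩ := by
      rintro ψ' z' h rfl rfl
      rfl
    exact gen _ _ _ e1 (Prod.ext e2 e3)

variable [Finite k]

instance fin_sub (P : k × k → Prop) : Finite {z : k × k // P z} := inferInstance

/-- all the points of a curve -/
theorem curve_le {f : A[X][X]} (hf : f.Monic) (ψ : A →+* k) (S : Finset k) :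
    Nat.card {z : k × k // ev ψ z f = 0 ∧ z.1 ∈ S} ≤ S.card * f.natDegree := by
  classical
  have := Fintype.ofFinite k
  let g : (x : k) → k[X] := fun x => f.map (eval₂RingHom ψ x)
  have hg : ∀ x, (g x).natDegree ≤ f.natDegree ∧ g x ≠ 0 := fun x =>
    ⟨natDegree_map_le, (hf.map _).ne_zero⟩
  let j : {z : k × k // ev ψ z f = 0 ∧ z.1 ∈ S} → (S.sigma fun x => (g x).roots.toFinset) :=
    fun z => ⟨⟨z.1.1, z.1.2⟩, by
      rw [Finset.mem_sigma]
      refine ⟨z.2.2, ?_⟩
      rw [Multiset.mem_toFinset, mem_roots (hg _).2, IsRoot.def]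
      show (f.map (eval₂RingHom ψ z.1.1)).eval z.1.2 = 0
      rw [← ev_eq']
      exact z.2.1⟩
  have hj : Function.Injective j := by
    intro z z' h
    have h1 := congrArg Subtype.val h
    have h2 : z.1.1 = z'.1.1 := congrArg Sigma.fst h1
    have h3 : z.1.2 = z'.1.2 := by
      have h4 := (Sigma.mk.injEq _ _ _ _).mp h1
      exact eq_of_heq h4.2
    exact Subtype.ext (Prod.ext h2 h3)
  have h1 := Nat.card_le_card_of_injective j hj
  refine h1.trans ?_
  rw [Nat.card_eq_fintype_card, Fintype.card_coe, Finset.card_sigma]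
  refine (Finset.sum_le_card_nsmul _ _ f.natDegree fun x _ => ?_).trans (le_of_eq (by rw [smul_eq_mul]))
  exact (Multiset.toFinset_card_le _).trans ((card_roots' _).trans (hg x).1)

theorem curve_le_all {f : A[X][X]} (hf : f.Monic) (ψ : A →+* k) :
    Nat.card {z : k × k // ev ψ z f = 0} ≤ Nat.card k * f.natDegree := by
  classical
  have := Fintype.ofFinite k
  have h1 := curve_le hf ψ Finset.univ
  rw [Finset.card_univ, ← Nat.card_eq_fintype_card] at h1
  refine le_trans (le_of_eq ?_) h1
  exact Nat.card_congr (Equiv.subtypeEquivRight fun z => by simp)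

/-- the number of the points with `T = 0` -/
theorem bad_le {f T : A[X][X]} (hf : f.Monic) {a : A[X]} {c : AdjoinRoot f}
    (hac : AdjoinRoot.of f a = AdjoinRoot.mk f T * c) (ψ : A →+* k) (hψ : ψ a.leadingCoeff ≠ 0) :
    Nat.card {z : k × k // ev ψ z f = 0} ≤ Nat.card {z : k × k // ev ψ z f = 0 ∧ ev ψ z T ≠ 0} +
      a.natDegree * f.natDegree := by
  classical
  have := Fintype.ofFinite k
  have ha0 : a.map ψ ≠ 0 := by
    intro h
    apply hψ
    have := congrArg (fun p => p.coeff a.natDegree) h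
    simpa [coeff_map] using this
  set S : Finset k := (a.map ψ).roots.toFinset with hS
  have hScard : S.card ≤ a.natDegree :=
    (Multiset.toFinset_card_le _).trans ((card_roots' _).trans natDegree_map_le)
  have h1 : ∀ z : k × k, ev ψ z f = 0 → ev ψ z T = 0 → z.1 ∈ S := by
    intro z hz hT
    rw [hS, Multiset.mem_toFinset, mem_roots ha0, IsRoot.def, eval_map]
    have h2 := congrArg (AdjoinRoot.lift (eval₂RingHom ψ z.1) z.2 hz) hac
    rw [map_mul, AdjoinRoot.lift_of, AdjoinRoot.lift_mk] at h2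
    have h3 : eval₂ (eval₂RingHom ψ z.1) z.2 T = 0 := hT
    rw [h3, zero_mul] at h2
    exact h2
  let j : {z : k × k // ev ψ z f = 0} →
      {z : k × k // ev ψ z f = 0 ∧ ev ψ z T ≠ 0} ⊕ {z : k × k // ev ψ z f = 0 ∧ z.1 ∈ S} :=
    fun z => if h : ev ψ z.1 T ≠ 0 then Sum.inl ⟨z.1, z.2, h⟩ else
      Sum.inr ⟨z.1, z.2, h1 z.1 z.2 (not_not.1 h)⟩
  have hj : Function.Injective j := by
    intro z z' h
    simp only [j] at h
    split_ifs at h with h2 h3 h3
    · have h4 := Sum.inl.inj h
      have h5 : z.1 = z'.1 := congrArg (fun w => w.1) h4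
      exact Subtype.ext h5
    · have h4 := Sum.inr.inj h
      have h5 : z.1 = z'.1 := congrArg (fun w => w.1) h4
      exact Subtype.ext h5
  have h2 := Nat.card_le_card_of_injective j hj
  rw [Nat.card_sum] at h2
  exact h2.trans (Nat.add_le_add_left ((curve_le hf ψ S).trans
    (Nat.mul_le_mul_right _ hScard)) _)

end

end Pool.Agent.R410.LW
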