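import Pool.Agent.R410.LW.Hom
import Pool.Agent.R410.LW.Bez
import Pool.Agent.W385.CP.Poly

/-! The number of the points of a family of plane curves with values in a finite field. -/

set_option autoImplicit false
set_option linter.all false

open Polynomial NumberField

namespace Pool.Agent.R410.LW

/-- For all nonzero multiples `t` of some `s ≠ 0`, the number of the points of `Spec A` with `t ≠ 0` with
values in the finite field `k` with `q` elements is `h q ^ d + O(q ^ (d - 1 / 2))`, where `h` is the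
number of the homomorphisms from the ring of integers of `L` to `k`. -/
def Landau (A : Type) [CommRing A] (d : ℕ) (L : Type) [Field L] [NumberField L] : Prop :=
  ∃ s : A, s ≠ 0 ∧ ∀ t : A, t ≠ 0 → s ∣ t → ∃ (C : ℝ) (N : ℕ), 0 ≤ C ∧ N ≠ 0 ∧
    ∀ (k : Type) [Field k] [Finite k], ((N : ℕ) : k) ≠ 0 →
      |(Nat.card {φ : A →+* k // φ t ≠ 0} : ℝ) - Nat.card (𝓞 L →+* k) * (Nat.card k : ℝ) ^ d| *
        √(Nat.card k : ℝ) ≤ C * (Nat.card k : ℝ) ^ d

theorem abs_help {T H P q s x y e : ℝ} (hq : 0 ≤ q) (hs : 0 ≤ s) (h1 : |T - q * P| * s ≤ x)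
    (h2 : |P - H| * s ≤ y) (h3 : x + q * y ≤ e) : |T - q * H| * s ≤ e := by
  have h4 : T - q * H = (T - q * P) + q * (P - H) := by ring
  have h5 : |T - q * H| ≤ |T - q * P| + q * |P - H| := by
    rw [h4]
    refine (abs_add_le _ _).trans ?_
    rw [abs_mul, abs_of_nonneg hq]
  have h6 := mul_le_mul_of_nonneg_right h5 hs
  nlinarith [mul_le_mul_of_nonneg_left h2 hq]

/-- the sum over the parameters -/
theorem arith {ι : Type} [Fintype ι] (P0 P1 : Finset ι) (hP : P1 ⊆ P0) (n : ι → ℕ)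
    {q s W e m C0 C1 H D : ℝ} (hq1 : 1 ≤ q) (hs1 : 1 ≤ s) (hsq : s ^ 2 = q) (hW : 0 ≤ W)
    (he : 0 ≤ e) (hm : 0 ≤ m) (hC0 : 0 ≤ C0) (hC1 : 0 ≤ C1) {d : ℕ}
    (h1 : ∀ i ∈ P1, |(n i : ℝ) - q| ≤ W * s + e) (h2 : ∀ i ∈ P0, (n i : ℝ) ≤ q * m)
    (h3 : ∀ i, i ∉ P0 → n i = 0)
    (g0 : |(P0.card : ℝ) - H * q ^ d| * s ≤ C0 * q ^ d)
    (g1 : |(P1.card : ℝ) - H * q ^ d| * s ≤ C1 * q ^ d) (hH : H ≤ D) (hH0 : 0 ≤ H) :
    |((∑ i, n i : ℕ) : ℝ) - H * q ^ (d + 1)| * s ≤
      ((W + e) * (D + C1) + m * (C0 + C1) + C1) * q ^ (d + 1) := by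
  classical
  have hq0 : 0 ≤ q := by linarith
  have hs0 : 0 ≤ s := by linarith
  have hqd : 0 ≤ q ^ d := pow_nonneg hq0 d
  have e1 : ((∑ i, n i : ℕ) : ℝ) = ∑ i ∈ P1, (n i : ℝ) + ∑ i ∈ P0 \ P1, (n i : ℝ) := by
    push_cast
    rw [← Finset.sum_subset (Finset.subset_univ P0) (f := fun i => (n i : ℝ))
      (fun i _ hi => by rw [h3 i hi, Nat.cast_zero]), add_comm, Finset.sum_sdiff hP]
  have e2 : |∑ i ∈ P1, (n i : ℝ) - q * P1.card| ≤ (W * s + e) * P1.card := by
    have h4 : ∑ i ∈ P1, (n i : ℝ) - q * P1.card = ∑ i ∈ P1, ((n i : ℝ) - q) := by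
      rw [Finset.sum_sub_distrib, Finset.sum_const, nsmul_eq_mul, mul_comm]
    rw [h4]
    refine (Finset.abs_sum_le_sum_abs _ _).trans ((Finset.sum_le_card_nsmul _ _ _ h1).trans ?_)
    rw [nsmul_eq_mul, mul_comm]
  have hcard : ((P0 \ P1).card : ℝ) = P0.card - P1.card := by
    rw [Finset.card_sdiff_of_subset hP, Nat.cast_sub (Finset.card_le_card hP)]
  have e3 : |∑ i ∈ P0 \ P1, (n i : ℝ)| ≤ q * m * (P0.card - P1.card) := by
    rw [abs_of_nonneg (Finset.sum_nonneg fun i _ => Nat.cast_nonneg _)]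
    refine (Finset.sum_le_card_nsmul _ _ (q * m) fun i hi => h2 i (Finset.mem_sdiff.1 hi).1).trans ?_
    rw [nsmul_eq_mul, hcard, mul_comm]
  have hP1 : (P1.card : ℝ) ≤ (D + C1) * q ^ d := by
    have h4 : |(P1.card : ℝ) - H * q ^ d| ≤ C1 * q ^ d := by
      refine le_trans ?_ g1
      exact le_mul_of_one_le_right (abs_nonneg _) hs1
    have h5 := (abs_le.1 h4).2
    have h6 : H * q ^ d ≤ D * q ^ d := mul_le_mul_of_nonneg_right hH hqd
    linarith
  have hdiff : ((P0.card : ℝ) - P1.card) * s ≤ (C0 + C1) * q ^ d := by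
    have h4 : ((P0.card : ℝ) - P1.card) ≤ |(P0.card : ℝ) - H * q ^ d| + |(P1.card : ℝ) - H * q ^ d| := by
      have h5 := le_abs_self ((P0.card : ℝ) - H * q ^ d)
      have h6 := neg_abs_le ((P1.card : ℝ) - H * q ^ d)
      linarith
    have h5 := mul_le_mul_of_nonneg_right h4 hs0
    nlinarith
  have hP1' : (0 : ℝ) ≤ P1.card := Nat.cast_nonneg _
  have hT : |((∑ i, n i : ℕ) : ℝ) - q * P1.card| * s ≤
      ((W + e) * (D + C1) + m * (C0 + C1)) * q ^ (d + 1) := by
    have h4 : |((∑ i, n i : ℕ) : ℝ) - q * P1.card| ≤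
        (W * s + e) * P1.card + q * m * (P0.card - P1.card) := by
      rw [e1, add_sub_right_comm]
      exact (abs_add_le _ _).trans (add_le_add e2 e3)
    have h5 := mul_le_mul_of_nonneg_right h4 hs0
    refine h5.trans ?_
    have h6 : (W * s + e) * s ≤ (W + e) * q := by
      have : s ≤ q := by rw [← hsq]; nlinarith
      nlinarith
    have h7 : (W * s + e) * P1.card * s ≤ (W + e) * q * ((D + C1) * q ^ d) := by
      calc (W * s + e) * P1.card * s = ((W * s + e) * s) * P1.card := by ring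
        _ ≤ ((W + e) * q) * ((D + C1) * q ^ d) := by
            refine mul_le_mul h6 hP1 hP1' (by positivity)
    have h8 : q * m * (P0.card - P1.card) * s ≤ q * m * ((C0 + C1) * q ^ d) := by
      rw [mul_assoc]
      exact mul_le_mul_of_nonneg_left hdiff (by positivity)
    calc ((W * s + e) * P1.card + q * m * (P0.card - P1.card)) * s =
        (W * s + e) * P1.card * s + q * m * (P0.card - P1.card) * s := by ring
      _ ≤ (W + e) * q * ((D + C1) * q ^ d) + q * m * ((C0 + C1) * q ^ d) := add_le_add h7 h8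
      _ = _ := by ring
  have h9 := abs_help (H := H * q ^ d) hq0 hs0 hT g1 (e := ((W + e) * (D + C1) + m * (C0 + C1) + C1) *
    q ^ (d + 1)) (le_of_eq (by ring))
  have h10 : H * q ^ (d + 1) = q * (H * q ^ d) := by ring
  rw [h10]
  exact h9

/-- **The inductive step** -/
theorem step {A : Type} [CommRing A] [IsDomain A] [CharZero A] [Algebra.FiniteType ℤ A] {d : ℕ}
    {L : Type} [Field L] [NumberField L] (hA : Landau A d L) {k₀ kb : Type} [Field k₀]
    [Algebra A k₀] [IsFractionRing A k₀] [Field kb] [Algebra k₀ kb] [IsAlgClosed kb] {f : A[X][X]}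
    (hf : f.Monic) (hf0 : 0 < f.natDegree)
    (hirr : Irreducible (f.map (mapRingHom ((algebraMap k₀ kb).comp (algebraMap A k₀))))) :
    Landau (AdjoinRoot f) (d + 1) L := by
  classical
  set ι : A →+* kb := (algebraMap k₀ kb).comp (algebraMap A k₀) with hι
  have hιi : Function.Injective ι := (algebraMap k₀ kb).injective.comp (IsFractionRing.injective A k₀)
  have hdom : IsDomain (AdjoinRoot f) := adj_domain hιi hf hirr
  obtain ⟨s, hs, hA⟩ := hA
  obtain ⟨D, hD, hDirr⟩ := bn_poly (k := k₀) (kb := kb) f hf hf0 hirr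
  obtain ⟨a₁, b₁, D₁, hD₁, hab⟩ := bezout hιi hf hirr
  set l := D₁.leadingCoeff with hl
  have hl0 : l ≠ 0 := leadingCoeff_ne_zero.2 hD₁
  have hinj : Function.Injective (AdjoinRoot.of f) := by
    have h0 : f.degree ≠ 0 := by
      intro h
      have h1 := natDegree_eq_of_degree_eq_some (n := 0) h
      omega
    exact AdjoinRoot.of.injective_of_degree_ne_zero h0
  have hCi : Function.Injective ((AdjoinRoot.of f).comp (C : A →+* A[X])) :=
    hinj.comp C_injective
  set t₀ := s * D * l with ht₀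
  have ht₀0 : t₀ ≠ 0 := mul_ne_zero (mul_ne_zero hs hD) hl0
  refine ⟨AdjoinRoot.of f (C t₀), (map_ne_zero_iff _ hCi).2 ht₀0, ?_⟩
  intro t ht hst
  obtain ⟨T, rfl⟩ := AdjoinRoot.mk_surjective t
  -- a nonzero multiple in the polynomial ring
  have hint : Algebra.IsIntegral A[X] (AdjoinRoot f) := by
    have := hf.finite_adjoinRoot
    infer_instance
  obtain ⟨a, ha0, c, hac⟩ : ∃ a : A[X], a ≠ 0 ∧ ∃ c : AdjoinRoot f,
      AdjoinRoot.of f a = AdjoinRoot.mk f T * c := by
    have h1 := Ideal.comap_ne_bot_of_integral_mem (I := Ideal.span {AdjoinRoot.mk f T}) ht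
      (Ideal.mem_span_singleton_self _) (Algebra.IsIntegral.isIntegral (R := A[X]) (AdjoinRoot.mk f T))
    obtain ⟨a, ha, ha0⟩ := Submodule.exists_mem_ne_zero_of_ne_bot h1
    rw [Ideal.mem_comap, Ideal.mem_span_singleton] at ha
    obtain ⟨c, hc⟩ := ha
    exact ⟨a, ha0, c, hc⟩
  set t₁ := t₀ * a.leadingCoeff with ht₁
  have ht₁0 : t₁ ≠ 0 := mul_ne_zero ht₀0 (leadingCoeff_ne_zero.2 ha0)
  have hdvd0 : s ∣ t₀ := by
    rw [ht₀, mul_assoc]
    exact dvd_mul_right _ _
  obtain ⟨C0, N0, hC0, hN0, g0⟩ := hA t₀ ht₀0 hdvd0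
  obtain ⟨C1, N1, hC1, hN1, g1⟩ := hA t₁ ht₁0 (hdvd0.trans (dvd_mul_right _ _))
  -- bounds for the degrees
  obtain ⟨dd, hdd⟩ : ∃ dd : ℕ, ∀ i, (f.coeff i).natDegree ≤ dd := by
    refine ⟨f.support.sup fun i => (f.coeff i).natDegree, fun i => ?_⟩
    by_cases hi : i ∈ f.support
    · exact Finset.le_sup (f := fun i => (f.coeff i).natDegree) hi
    · rw [notMem_support_iff.1 hi, natDegree_zero]
      exact Nat.zero_le _
  set W : ℝ := |PW.WC f.natDegree dd D₁.natDegree| with hW
  set e : ℝ := a.natDegree * f.natDegree with he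
  refine ⟨(W + e) * (Module.finrank ℤ (𝓞 L) + C1) + f.natDegree * (C0 + C1) + C1, N0 * N1,
    by positivity, mul_ne_zero hN0 hN1, ?_⟩
  intro k _ _ hN
  rw [Nat.cast_mul] at hN
  have g0' := g0 k (left_ne_zero_of_mul hN)
  have g1' := g1 k (right_ne_zero_of_mul hN)
  have hfin : Finite (A →+* k) := inferInstance
  let _ : Fintype (A →+* k) := Fintype.ofFinite _
  have hcard : Nat.card {φ : AdjoinRoot f →+* k // φ (AdjoinRoot.mk f T) ≠ 0} =
      ∑ ψ : A →+* k, Nat.card {z : k × k // ev ψ z f = 0 ∧ ev ψ z T ≠ 0} := by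
    rw [Nat.card_congr (homEquiv f T), Nat.card_sigma]
  rw [hcard]
  set q : ℝ := (Nat.card k : ℝ) with hq
  have hq1 : 1 ≤ q := by
    rw [hq]
    exact_mod_cast Nat.card_pos
  have hsq1 : 1 ≤ √q := Real.one_le_sqrt.2 hq1
  refine arith (Finset.univ.filter fun ψ : A →+* k => ψ t₀ ≠ 0)
    (Finset.univ.filter fun ψ : A →+* k => ψ t₁ ≠ 0) ?_
    (fun ψ => Nat.card {z : k × k // ev ψ z f = 0 ∧ ev ψ z T ≠ 0}) hq1 hsq1
    (Real.sq_sqrt (by linarith)) (abs_nonneg _) (by positivity) (by positivity) hC0 hC1 ?_ ?_ ?_ ?_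
    ?_ ?_ (by positivity)
  · intro ψ hψ
    rw [Finset.mem_filter] at hψ ⊢
    refine ⟨hψ.1, fun h => hψ.2 ?_⟩
    rw [ht₁, map_mul, h, zero_mul]
  · -- the generic points
    intro ψ hψ
    rw [Finset.mem_filter, ht₁, ht₀, map_mul, map_mul, map_mul] at hψ
    have k1 := right_ne_zero_of_mul hψ.2
    have k2 := left_ne_zero_of_mul hψ.2
    have k3 := right_ne_zero_of_mul k2
    have k4 := right_ne_zero_of_mul (left_ne_zero_of_mul k2)
    have hfm : (f.map (mapRingHom ψ)).Monic := hf.map _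
    have hfd : (f.map (mapRingHom ψ)).natDegree = f.natDegree := hf.natDegree_map _
    have hirr' : Irreducible ((f.map (mapRingHom ψ)).map
        (mapRingHom (algebraMap k (AlgebraicClosure k)))) := by
      have h := hDirr (AlgebraicClosure k) ((algebraMap k (AlgebraicClosure k)).comp ψ) (by
        rw [RingHom.comp_apply]
        exact (_root_.map_ne_zero _).2 k4)
      rw [Polynomial.map_map]
      have h5 : (mapRingHom (algebraMap k (AlgebraicClosure k))).comp (mapRingHom ψ) =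
          mapRingHom ((algebraMap k (AlgebraicClosure k)).comp ψ) := by
        rw [mapRingHom_comp]
      rw [h5]
      exact h
    have hab' : a₁.map (mapRingHom ψ) * f.map (mapRingHom ψ) +
        b₁.map (mapRingHom ψ) * derivative (f.map (mapRingHom ψ)) = C (D₁.map ψ) := by
      have h := congrArg (Polynomial.map (mapRingHom ψ)) hab
      rw [Polynomial.map_add, Polynomial.map_mul, Polynomial.map_mul, Polynomial.map_C] at h
      rw [derivative_map]
      exact h
    have hD' : D₁.map ψ ≠ 0 := by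
      intro h
      apply k3
      have := congrArg (fun p => p.coeff D₁.natDegree) h
      simp only [coeff_map, coeff_zero] at this
      rw [hl, leadingCoeff]
      exact this
    have hw := PW.weil (F := k) (AlgebraicClosure k) (f := f.map (mapRingHom ψ)) hfm
      (by rw [hfd]; exact hf0) hab' hD' (δ := D₁.natDegree) natDegree_map_le (d := dd)
      (fun i => by
        rw [coeff_map]
        exact natDegree_map_le.trans (hdd i)) hirr'
    rw [hfd] at hw
    have hnc : ({z : k × k | evalEval z.1 z.2 (f.map (mapRingHom ψ)) = 0}.ncard : ℝ) =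
        Nat.card {z : k × k // ev ψ z f = 0} := by
      rw [← Nat.card_coe_set_eq]
      congr 1
      exact Nat.card_congr (Equiv.subtypeEquivRight fun z => by
        rw [Set.mem_ofPred_eq, ev_eq])
    rw [hnc] at hw
    have hb := bad_le hf hac ψ k1
    have hb' : (Nat.card {z : k × k // ev ψ z f = 0 ∧ ev ψ z T ≠ 0} : ℝ) ≤
        Nat.card {z : k × k // ev ψ z f = 0} := by
      exact_mod_cast Nat.card_le_card_of_injective
        (fun z : {z : k × k // ev ψ z f = 0 ∧ ev ψ z T ≠ 0} =>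
          (⟨z.1, z.2.1⟩ : {z : k × k // ev ψ z f = 0}))
        (fun z z' h => Subtype.ext (congrArg (fun w => w.1) h))
    have hb2 : (Nat.card {z : k × k // ev ψ z f = 0} : ℝ) ≤
        Nat.card {z : k × k // ev ψ z f = 0 ∧ ev ψ z T ≠ 0} + e := by
      rw [he]
      exact_mod_cast hb
    have hw2 : |(Nat.card {z : k × k // ev ψ z f = 0} : ℝ) - q| ≤ W * √q :=
      hw.trans (mul_le_mul_of_nonneg_right (le_abs_self _) (Real.sqrt_nonneg _))
    rw [abs_le] at hw2 ⊢
    constructor <;> linarith [hw2.1, hw2.2, show (0 : ℝ) ≤ e by positivity]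
  · intro ψ _
    have h := curve_le_all hf ψ
    have hb' : Nat.card {z : k × k // ev ψ z f = 0 ∧ ev ψ z T ≠ 0} ≤
        Nat.card {z : k × k // ev ψ z f = 0} :=
      Nat.card_le_card_of_injective
        (fun z : {z : k × k // ev ψ z f = 0 ∧ ev ψ z T ≠ 0} =>
          (⟨z.1, z.2.1⟩ : {z : k × k // ev ψ z f = 0}))
        (fun z z' h => Subtype.ext (congrArg (fun w => w.1) h))
    rw [hq]
    exact_mod_cast hb'.trans h
  · intro ψ hψ
    rw [Finset.mem_filter, not_and] at hψ
    have h0 := not_not.1 (hψ (Finset.mem_univ _))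
    rw [Nat.card_eq_zero]
    left
    constructor
    rintro ⟨z, hz, hT⟩
    apply hT
    obtain ⟨c', hc'⟩ := hst
    have h1 := congrArg (AdjoinRoot.lift (eval₂RingHom ψ z.1) z.2 hz) hc'
    rw [map_mul, AdjoinRoot.lift_of, AdjoinRoot.lift_mk, coe_eval₂RingHom, eval₂_C, h0,
      zero_mul] at h1
    exact h1
  · have h := g0'
    rwa [Nat.card_eq_fintype_card, Fintype.card_subtype] at h
  · have h := g1'
    rwa [Nat.card_eq_fintype_card, Fintype.card_subtype] at h
  · exact_mod_cast (Pool.Agent.W385.CP.hom_int L k).2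

end Pool.Agent.R410.LW
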